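import Mathlib

namespace Pool.Agent.Results.MP_4ff6b6_an.Chain

open Set

/-- `(a, b)` is a bounded gap of `K`. -/
def Gap (K : Set ℝ) (a b : ℝ) : Prop := a ∈ K ∧ b ∈ K ∧ a < b ∧ ∀ x ∈ K, x ≤ a ∨ b ≤ x

/-- Length of the bridge at the right endpoint of the gap `(a, b)`. -/
noncomputable def brR (K : Set ℝ) (a b : ℝ) : ℝ :=
  sInf (insert (sSup K) {c | ∃ d, Gap K c d ∧ b ≤ c ∧ b - a ≤ d - c}) - b

/-- Length of the bridge at the left endpoint of the gap `(a, b)`. -/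
noncomputable def brL (K : Set ℝ) (a b : ℝ) : ℝ :=
  a - sSup (insert (sInf K) {d | ∃ c, Gap K c d ∧ d ≤ a ∧ b - a ≤ d - c})

/-- Newhouse thickness. -/
noncomputable def thick (K : Set ℝ) : ℝ :=
  sInf {r | ∃ a b, Gap K a b ∧ (r = brR K a b / (b - a) ∨ r = brL K a b / (b - a))}

def T (s : ℝ) (X : Set ℝ) : Prop :=
  ∀ a b c d, Gap X a b → Gap X c d → b ≤ c → s * (b - a) ≤ c - b ∨ s * (d - c) ≤ c - b

lemma gapAt {X : Set ℝ} (hX : IsClosed X) {c l r : ℝ} (hc : c ∉ X) (hl : l ∈ X) (hr : r ∈ X)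
    (h1 : l ≤ c) (h2 : c ≤ r) : ∃ a b, Gap X a b ∧ l ≤ a ∧ a < c ∧ c < b ∧ b ≤ r := by
  obtain ⟨a, ⟨a1, a2⟩, a3⟩ := (isCompact_Icc.inter_left hX).exists_isGreatest ⟨l, hl, le_rfl, h1⟩
  obtain ⟨b, ⟨b1, b2⟩, b3⟩ := (isCompact_Icc.inter_left hX).exists_isLeast ⟨r, hr, h2, le_rfl⟩
  have ac := a2.2.lt_of_ne fun e => hc (e ▸ a1)
  have cb := b2.1.lt_of_ne fun e => hc (e ▸ b1)
  refine ⟨a, b, ⟨a1, b1, ac.trans cb, fun x hx => ?_⟩, a2.1, ac, cb, b2.2⟩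
  rcases le_total x c with h | h
  · exact .inl ((le_total x l).elim (·.trans a2.1) fun e => a3 ⟨hx, e, h⟩)
  · exact .inr ((le_total r x).elim b2.2.trans fun e => b3 ⟨hx, h, e⟩)

lemma chain {s E η t : ℝ} (hs : 1 < s) (n : ℕ) : ∀ X Y : Set ℝ, IsClosed X → IsClosed Y → T s X →
    T s Y → (∃ x ∈ X, E ≤ x) → (∃ y ∈ Y, E ≤ y) →
    (∀ x ∈ X, ∀ y ∈ Y, t ≤ x → t ≤ y → η < |x - y|) → 0 ≤ η → ∀ a b c d, Gap X a b → Gap Y c d →
    t ≤ b → c < b → b < d → d - c < s * (b - a) → (s - 1) * d + (d - c) ≤ (s - 1) * E →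
    η * s ^ n < d - c := by
  induction n with
  | zero =>
    intro X Y _ _ _ _ _ _ h _ a b c d g1 g2 tb cb bd _ _
    have := h b g1.2.1 d g2.2.1 tb (by linarith)
    rw [abs_of_neg (by linarith)] at this
    linarith
  | succ n ih =>
    intro X Y cX cY tX tY ⟨x, hx, ex⟩ eY h h0 a b c d g1 g2 tb cb bd l1 l2
    obtain ⟨e, f, g3, be, ed, df, -⟩ := gapAt cX (c := d) (fun hd => by
      have := h d hd d g2.2.1 (by linarith) (by linarith)
      simp at this; linarith) g1.2.1 hx bd.le (by nlinarith)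
    have k : s * (f - e) < d - c := by rcases tX a b e f g1 g3 be with k | k <;> linarith
    have := ih Y X cY cX tY tX eY ⟨x, hx, ex⟩ (fun y hy x hx a b => abs_sub_comm x y ▸ h x hx y hy b a)
      h0 c d e f g2 g3 (by linarith) ed df (by nlinarith) (by nlinarith)
    rw [pow_succ]
    nlinarith

lemma pull {K : Set ℝ} {k m D : ℝ} {φ : ℝ → ℝ} (hk : 1 < k) (hm : 0 < m) (hT : T (k ^ 2) K)
    (hc : Continuous φ) (h : ∀ t ∈ Icc 0 D, ∀ s ∈ Icc 0 D, t ≤ s →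
      m * (s - t) ≤ φ s - φ t ∧ φ s - φ t ≤ k * m * (s - t)) :
    (∀ a b, Gap (Icc 0 D ∩ φ ⁻¹' K) a b → Gap K (φ a) (φ b)) ∧ T k (Icc 0 D ∩ φ ⁻¹' K) := by
  have G : ∀ a b, Gap (Icc 0 D ∩ φ ⁻¹' K) a b → Gap K (φ a) (φ b) := fun a b ⟨h1, h2, h3, h4⟩ =>
    ⟨h1.2, h2.2, by nlinarith [(h a h1.1 b h2.1 h3.le).1], fun x hx => by
      by_contra! e
      obtain ⟨t, ht, rfl⟩ := intermediate_value_Ioo h3.le hc.continuousOn e
      rcases h4 t ⟨⟨h1.1.1.trans ht.1.le, ht.2.le.trans h2.1.2⟩, hx⟩ with e | e <;>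
        linarith [ht.1, ht.2]⟩
  refine ⟨G, fun a b c d g1 g2 bc => ?_⟩
  have e1 := (h a g1.1.1 b g1.2.1.1 g1.2.2.1.le).1
  have e2 := (h c g2.1.1 d g2.2.1.1 g2.2.2.1.le).1
  have e3 := h b g1.2.1.1 c g2.1.1 bc
  have km : 0 < k * m := by positivity
  have k2 : 0 ≤ k ^ 2 := by positivity
  refine (hT _ _ _ _ (G a b g1) (G c d g2) (by nlinarith [e3.1])).imp (fun e => ?_) fun e => ?_ <;>
    refine le_of_mul_le_mul_left ?_ km <;>
    linarith [mul_le_mul_of_nonneg_left e1 k2, mul_le_mul_of_nonneg_left e2 k2, e3.2]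

lemma core {K : Set ℝ} {k m M D g g' z : ℝ} {φ ψ : ℝ → ℝ} (cK : IsClosed K) (hk : 1 < k)
    (hm : 1 ≤ m) (hM : m ≤ M) (hT : T (k ^ 2) K) (cφ : Continuous φ) (cψ : Continuous ψ)
    (h1 : ∀ t ∈ Icc 0 D, ∀ s ∈ Icc 0 D, t ≤ s →
      m * (s - t) ≤ φ s - φ t ∧ φ s - φ t ≤ k * m * (s - t))
    (h2 : ∀ t ∈ Icc 0 D, ∀ s ∈ Icc 0 D, t ≤ s →
      M * (s - t) ≤ ψ s - ψ t ∧ ψ s - ψ t ≤ k * M * (s - t))
    (h3 : ∀ t ∈ Icc 0 D, φ t ≤ ψ t ∧ ψ t - φ t ≤ k * (φ t - g)) (p0 : φ 0 = g) (q0 : ψ 0 = g)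
    (hg : Gap K g g') (hz : z ∈ K) (z1 : (1 + k) * k * (2 + 1 / (k - 1)) * (g' - g) ≤ z - g)
    (z2 : z - g ≤ D) : ∃ t > 0, φ t ∈ K ∧ ψ t ∈ K := by
  by_contra! hn
  have gg := hg.2.2.1
  have k1 : 0 < k - 1 := by linarith
  obtain ⟨C, hC⟩ : ∃ C, C = 2 + 1 / (k - 1) := ⟨_, rfl⟩
  have C2 : 2 < C := by rw [hC]; linarith [one_div_pos.2 k1]
  have C3 : (k - 1) * C = 2 * (k - 1) + 1 := by rw [hC]; field_simp
  rw [← hC] at z1
  have z3 : C * (g' - g) ≤ z - g := by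
    nlinarith [mul_pos (mul_pos k1 (show 0 < k + 2 by linarith)) (mul_pos (two_pos.trans C2)
      (sub_pos.2 gg))]
  have D0 : 0 ≤ D := by nlinarith
  have i0 : (0 : ℝ) ∈ Icc 0 D := ⟨le_rfl, D0⟩
  have iD : D ∈ Icc 0 D := ⟨D0, le_rfl⟩
  have zD : z ≤ φ D := by nlinarith [(h1 0 i0 D iD D0).1]
  obtain ⟨L, iL, eL⟩ := intermediate_value_Icc D0 cφ.continuousOn
    (show g' ∈ _ from ⟨by linarith, by nlinarith⟩)
  have l1 := h1 0 i0 L iL iL.1
  have L0 : 0 < L := by by_contra h; nlinarith [l1.2, mul_pos (one_pos.trans hk) (one_pos.trans_le hm)]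
  have iE : C * L ∈ Icc 0 D := ⟨by positivity, by nlinarith [l1.1]⟩
  have zE : ψ (C * L) ≤ z := by
    have a := (h1 0 i0 _ iE iE.1).2
    have b : k * m * (C * L - 0) ≤ k * C * (g' - g) := by
      nlinarith [mul_le_mul_of_nonneg_left l1.1 (show 0 ≤ k * C by positivity)]
    nlinarith [(h3 _ iE).2]
  obtain ⟨x, ix, ex⟩ := intermediate_value_Icc iE.2 cφ.continuousOn
    (show z ∈ _ from ⟨(h3 _ iE).1.trans zE, zD⟩)
  obtain ⟨y, iy, ey⟩ := intermediate_value_Icc iE.2 cψ.continuousOn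
    (show z ∈ _ from ⟨zE, zD.trans (h3 _ iD).1⟩)
  obtain ⟨w, iw, ew⟩ := intermediate_value_Icc L0.le cψ.continuousOn
    (show g' ∈ _ from ⟨by linarith, eL ▸ (h3 _ iL).1⟩)
  have cA := isClosed_Icc (a := 0) (b := D) |>.inter (cK.preimage cφ)
  have cB := isClosed_Icc (a := 0) (b := D) |>.inter (cK.preimage cψ)
  obtain ⟨-, tA⟩ := pull hk (by linarith) hT cφ h1
  obtain ⟨gB, tB⟩ := pull hk (by linarith) hT cψ h2
  have my : y ∈ Icc 0 D ∩ ψ ⁻¹' K := ⟨⟨iE.1.trans iy.1, iy.2⟩, show ψ y ∈ K from ey ▸ hz⟩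
  have mL : φ L ∈ K := eL ▸ hg.2.1
  have iw' : w ∈ Icc 0 D := ⟨iw.1, iw.2.trans iL.2⟩
  obtain ⟨c, d, g2, wc, cL, Ld, -⟩ := gapAt cB (c := L) (fun h => hn L L0 mL h.2)
    ⟨iw', show ψ w ∈ K from ew ▸ hg.2.1⟩ my iw.2 (by nlinarith [iy.1])
  have dc : d - c ≤ L := by
    have a1 := (h2 w iw' c g2.1.1 wc).1
    have a2 := (h2 c g2.1.1 L iL cL.le).1
    have a3 := (h2 c g2.1.1 d g2.2.1.1 g2.2.2.1.le).1
    have a4 := (h3 L iL).2
    have a5 : ψ c - g' ≤ k * (g' - g) := by nlinarith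
    have k0 : 0 < k := by linarith
    rcases hT _ _ _ _ hg (gB c d g2) (by nlinarith) with e | e
    · nlinarith [mul_pos (mul_pos k0 k1) (sub_pos.2 gg)]
    · have b1 : k * (ψ d - ψ c) ≤ g' - g := le_of_mul_le_mul_left (by linarith) k0
      have b2 : ψ d - ψ c ≤ m * L := le_of_mul_le_mul_left (by linarith [l1.2]) k0
      nlinarith [g2.2.2.1]
  obtain ⟨r, r0, hr⟩ := Metric.exists_pos_forall_lt_edist ((isCompact_Icc.inter_right
    (cK.preimage cφ)).inter_right (isClosed_Ici (a := L))) cB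
    (disjoint_left.2 fun t h h' => hn t (L0.trans_le h.2) h.1.2 h'.2)
  obtain ⟨n, hn'⟩ := pow_unbounded_of_one_lt ((d - c) / r) hk
  rw [div_lt_iff₀' (by exact_mod_cast r0)] at hn'
  refine hn'.not_gt (chain (E := C * L) (t := L) hk n _ _ cA cB tA tB
    ⟨x, ⟨⟨iE.1.trans ix.1, ix.2⟩, show φ x ∈ K from ex ▸ hz⟩, ix.1⟩ ⟨y, my, iy.1⟩
    (fun a ha b hb h _ => ?_) r.2 0 L c d ⟨⟨i0, show φ 0 ∈ K from p0 ▸ hg.1⟩, ⟨iL, mL⟩, L0,
      fun t ht => ?_⟩ g2 le_rfl cL Ld (by nlinarith) (by nlinarith))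
  · have := hr a ⟨ha, h⟩ b hb
    rwa [edist_nndist, ENNReal.coe_lt_coe, ← NNReal.coe_lt_coe, coe_nndist] at this
  · refine (hg.2.2.2 _ ht.2).imp (fun e => ?_) fun e => ?_
    · nlinarith [(h1 0 i0 t ht.1 ht.1.1).1, ht.1.1]
    · by_contra! h
      nlinarith [(h1 t ht.1 L iL h.le).1]

theorem result (K : Set ℝ) (hK : IsCompact K) (hP : Perfect K) (hD : IsTotallyDisconnected K)
    (hτ : 1 < thick K) (f : ℝ → ℝ) (hf : ContDiff ℝ 1 f) (f0 : f 0 = 0) (f1 : 0 < deriv f 0) :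
    ∃ x, ∃ t > 0, x - t ∈ K ∧ x ∈ K ∧ x + f t ∈ K := by
  obtain ⟨k, hk, ek⟩ : ∃ k, 1 < k ∧ k ^ 2 = thick K :=
    ⟨√_, Real.lt_sqrt_of_sq_lt (by linarith), Real.sq_sqrt (by linarith)⟩
  have bb : BddBelow {r | ∃ a b, Gap K a b ∧ (r = brR K a b / (b - a) ∨ r = brL K a b / (b - a))} := by
    by_contra h
    rw [thick, Real.sInf_of_not_bddBelow h] at hτ
    linarith
  have hT : T (k ^ 2) K := fun a b c d g1 g2 bc => by
    rw [ek]
    refine (le_total (b - a) (d - c)).imp (fun h => ?_) fun h => ?_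
    · refine ((le_div_iff₀ (sub_pos.2 g1.2.2.1)).1 (csInf_le bb ⟨a, b, g1, .inl rfl⟩)).trans
        (sub_le_sub_right (csInf_le ⟨b, ?_⟩ (.inr ⟨d, g2, bc, h⟩)) _)
      rintro _ (rfl | ⟨_, -, h, -⟩)
      exacts [le_csSup hK.bddAbove g1.2.1, h]
    · refine ((le_div_iff₀ (sub_pos.2 g2.2.2.1)).1 (csInf_le bb ⟨c, d, g2, .inr rfl⟩)).trans
        (sub_le_sub_left (le_csSup ⟨c, ?_⟩ (.inr ⟨a, g1, bc, h⟩)) _)
      rintro _ (rfl | ⟨_, -, h, -⟩)
      exacts [csInf_le hK.bddBelow g2.1, h]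
  obtain ⟨m, m0, m1, m2⟩ : ∃ m, 0 < m ∧ m < deriv f 0 ∧ deriv f 0 < k * m :=
    ⟨2 * deriv f 0 / (1 + k), by positivity, by rw [div_lt_iff₀ (by linarith)]; nlinarith,
      by rw [← mul_div_assoc, lt_div_iff₀ (by linarith)]; nlinarith⟩
  obtain ⟨D, D0, hd⟩ := Metric.nhds_basis_closedBall.eventually_iff.1
    ((hf.continuous_deriv le_rfl).continuousAt.eventually (Icc_mem_nhds m1 m2))
  have df := hf.differentiable one_ne_zero
  have hd' : ∀ x ∈ interior (Icc 0 D), deriv f x ∈ Icc m (k * m) := fun x hx => hd (by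
    have := interior_subset hx
    rw [Real.closedBall_eq_Icc]
    exact ⟨by linarith [this.1], by linarith [this.2]⟩)
  have sl : ∀ t ∈ Icc 0 D, ∀ s ∈ Icc 0 D, t ≤ s →
      m * (s - t) ≤ f s - f t ∧ f s - f t ≤ k * m * (s - t) := fun t ht s hs h =>
    ⟨(convex_Icc 0 D).mul_sub_le_image_sub_of_le_deriv df.continuous.continuousOn
      df.differentiableOn (fun x hx => (hd' x hx).1) t ht s hs h,
    (convex_Icc 0 D).image_sub_le_mul_sub_of_deriv_le df.continuous.continuousOn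
      df.differentiableOn (fun x hx => (hd' x hx).2) t ht s hs h⟩
  obtain ⟨y0, hy0⟩ : K.Nonempty := by
    by_contra! h
    simp [thick, Gap, h] at hτ
    linarith
  have hi := Infinite.of_accPt ((hP.acc y0 hy0).nhds_inter
    (Icc_mem_nhds (a := y0 - D / 2) (b := y0 + D / 2) (by linarith) (by linarith)))
  obtain ⟨u, hu, hu'⟩ := (isCompact_Icc.inter_right hK.isClosed).exists_isLeast hi.nonempty
  obtain ⟨v, hv, hv'⟩ := (isCompact_Icc.inter_right hK.isClosed).exists_isGreatest hi.nonempty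
  obtain ⟨y, hy, hy'⟩ := (hi.diff (toFinite {u, v})).nonempty
  simp only [mem_insert_iff, mem_singleton_iff, not_or] at hy'
  have uy := (hu' hy).lt_of_ne' hy'.1
  have yv := (hv' hy).lt_of_ne hy'.2
  obtain ⟨C, hC⟩ : ∃ C, C = (1 + k) * k * (2 + 1 / (k - 1)) := ⟨_, rfl⟩
  have C0 : 0 < C := by have : 0 < k - 1 := by linarith
                        rw [hC]; positivity
  obtain ⟨η, η0, η1, η2⟩ : ∃ η > 0, (C + 1) * η ≤ y - u ∧ (C + 1) * η ≤ v - y :=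
    ⟨min (y - u) (v - y) / (C + 1), div_pos (lt_min (by linarith) (by linarith)) (by linarith), by
      rw [mul_div_cancel₀ _ (by linarith)]; exact ⟨min_le_left _ _, min_le_right _ _⟩⟩
  obtain ⟨y', ⟨h1, h2⟩, h3⟩ := accPt_iff_nhds.1 (hP.acc y hy.2) _
    (Icc_mem_nhds (a := y - η) (b := y + η) (by linarith) (by linarith))
  obtain ⟨p, q, hp, hq, pq, e1, e2, e3⟩ : ∃ p q, p ∈ K ∧ q ∈ K ∧ p < q ∧ y - η ≤ p ∧ q ≤ y + η ∧
      q - p ≤ η := by
    rcases lt_or_gt_of_ne h3 with h | h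
    exacts [⟨y', y, h2, hy.2, h, h1.1, by linarith, by linarith [h1.1]⟩,
      ⟨y, y', hy.2, h2, h, by linarith, h1.2, by linarith [h1.2]⟩]
  obtain ⟨c, hc, hc'⟩ := not_subset.1 fun h : Icc p q ⊆ K =>
    pq.ne (hD _ h isPreconnected_Icc ⟨le_rfl, pq.le⟩ ⟨pq.le, le_rfl⟩)
  obtain ⟨g, g', hg, pg, gc, cg, gq⟩ := gapAt hK.isClosed hc' hp hq hc.1 hc.2
  have cf := df.continuous
  have s0 := fun t (ht : t ∈ Icc 0 D) => sl 0 ⟨le_rfl, D0.le⟩ t ht ht.1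
  have Cg : C * (g' - g) ≤ C * η := by gcongr; linarith
  rcases le_total m 1 with h | h
  · obtain ⟨t, t0, a, b⟩ := core (φ := fun t => g + t) (ψ := fun t => g + t + f t) (M := 1 + m)
      (D := D) hK.isClosed hk le_rfl (by linarith) hT (by fun_prop) (by fun_prop)
      (fun t _ s _ h => ⟨by linarith, by nlinarith⟩)
      (fun t a s b h => ⟨by linarith [(sl t a s b h).1], by nlinarith [(sl t a s b h).2]⟩)
      (fun t a => ⟨by nlinarith [(s0 t a).1, a.1], by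
        nlinarith [(s0 t a).2, mul_nonneg (mul_nonneg (one_pos.trans hk).le a.1) (sub_nonneg.2 h)]⟩)
      (by simp) (by simp [f0]) hg hv.2 (by rw [← hC]; linarith)
      (by nlinarith [hu.1.1, hv.1.2])
    exact ⟨g + t, t, t0, by simpa using hg.1, a, b⟩
  · have G : ∀ a b, Gap K (-b) (-a) ↔ Gap (-K) a b := fun a b =>
      ⟨fun h => ⟨h.2.1, h.1, neg_lt_neg_iff.1 h.2.2.1, fun x hx =>
        (h.2.2.2 _ hx).symm.imp neg_le_neg_iff.1 neg_le_neg_iff.1⟩, fun h => ⟨h.2.1, h.1,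
          neg_lt_neg h.2.2.1, fun x hx => (h.2.2.2 (-x) (by simpa using hx)).symm.imp
            le_neg_of_le_neg neg_le_of_neg_le⟩⟩
    obtain ⟨t, t0, a, b⟩ := core (φ := fun t => -g' + f t) (ψ := fun t => -g' + f t + t)
      (M := m + 1) (D := D) (g := -g') (g' := -g) (z := -u) hK.isClosed.neg hk h (by linarith)
      (fun a b c d g1 g2 bc => (hT _ _ _ _ ((G _ _).2 g2) ((G _ _).2 g1) (neg_le_neg bc)).symm.imp
        (fun _ => by linarith) fun _ => by linarith) (by fun_prop) (by fun_prop)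
      (fun t a s b h => ⟨by linarith [(sl t a s b h).1], by linarith [(sl t a s b h).2]⟩)
      (fun t a s b h => ⟨by linarith [(sl t a s b h).1], by nlinarith [(sl t a s b h).2]⟩)
      (fun t a => ⟨by linarith [a.1], by
        have : t ≤ f t := by nlinarith [(s0 t a).1, a.1]
        nlinarith [a.1]⟩)
      (by simp [f0]) (by simp [f0]) ((G _ _).1 (by simpa using hg)) (by simpa using hu.2)
      (by rw [← hC]; linarith) (by nlinarith [hu.1.1, hv.1.2])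
    exact ⟨g' - f t, t, t0, by convert mem_neg.1 b using 1; ring,
      by convert mem_neg.1 a using 1; ring, by simpa using hg.2.1⟩

end Pool.Agent.Results.MP_4ff6b6_an.Chain
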